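import Mathlib
import Pool.Agent.MP_caa27d_co.Iso

/- Two nested dense union-closed families in the cube. -/

set_option autoImplicit false

namespace Pool.Agent.MP_caa27d_co

open Finset Pool.Agent.MP_163ab5_co
open scoped Classical

variable {n : ℕ}

/-- The case where the larger family misses at least `1 / 8` of the cube. -/
theorem far {g h : Cube n → ℤ} (hg : Zo g) (hh : Zo h) (hgh : Zo fun x => g x - h x) {a b : ℤ}
    (ha : ∑ x, g x = 2 ^ n - a) (hb : ∑ x, h x = 2 ^ n - b) (hd : 8 * (a + b) ≤ 5 * 2 ^ n)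
    (h8 : 2 ^ n ≤ 8 * a) (ug : Bd g + ∑ i, cc g i ≤ 2 * a) (uh : Bd h + ∑ i, cc h i ≤ 2 * b)
    (hn : 0 < n) (hc : ∀ i, 0 < cc g i + cc h i) : False := by
  have N0 : (0 : ℤ) < 2 ^ n := by positivity
  have l1 := level hg le_rfl zero_le_one
  have l2 := level hh le_rfl zero_le_one
  have l3 := level_one hgh
  have l4 := (iso hgh).1
  rw [Finset.sum_sub_distrib, ha, hb] at l3 l4
  rw [ha] at l1
  rw [hb] at l2
  have e : ∑ i, (cc g i + cc h i) * (2 ^ n - (cc g i + cc h i)) =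
      2 ^ n * ∑ i, cc g i + 2 ^ n * ∑ i, cc h i - 2 * ∑ i, cc g i ^ 2 - 2 * ∑ i, cc h i ^ 2 +
        ∑ i, cc (fun x => g x - h x) i ^ 2 := by
    simp only [Finset.mul_sum, ← Finset.sum_add_distrib, ← Finset.sum_sub_distrib]
    refine Finset.sum_congr rfl fun i _ => ?_
    have : cc (fun x => g x - h x) i = cc g i - cc h i := by
      simp only [cc, sub_mul, Finset.sum_sub_distrib]
    rw [this]
    ring
  have p : 0 < ∑ i, (cc g i + cc h i) * (2 ^ n - (cc g i + cc h i)) :=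
    Finset.sum_pos (fun i _ => mul_pos (hc i) (by
      linarith [(cc_le hg i).2, (cc_le hh i).2])) ⟨⟨0, hn⟩, mem_univ _⟩
  have m1 := mul_le_mul_of_nonneg_left ug N0.le
  have m2 := mul_le_mul_of_nonneg_left uh N0.le
  rw [e] at p
  nlinarith [mul_nonneg (show 0 ≤ a by linarith) (sub_nonneg.2 hd),
    mul_nonneg (show 0 ≤ b by linarith) (show 0 ≤ 3 * 2 ^ n + 8 * a - 8 * b by linarith)]

/-- The directions other than `i`, for a family of small co-density. -/
theorem side {g : Cube n → ℤ} (hg : Zo g) {a : ℤ} (ha : ∑ x, g x = 2 ^ n - a)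
    (h8 : 8 * a ≤ 2 ^ n) (ug : Bd g + ∑ i, cc g i ≤ 2 * a) (i : Fin n) :
    ∑ j ∈ univ.erase i, cc g j ≤ 0 := by
  have h1 := Bd_rs (fun x => 1 - g x) i
  have h2 := (sum_rs (fun x => 1 - g x) i).1
  have h3 := iso (zo_rs (zo_compl hg) i false)
  have h4 := iso (zo_rs (zo_compl hg) i true)
  have h5 := (cc_le_Bi hg i).2
  simp only [Bi_compl] at h1
  rw [sum_compl', ha] at h1 h2
  rw [Bd_eq, ← Finset.sum_erase_add _ _ (mem_univ i), ← Finset.sum_erase_add _ _ (mem_univ i)] at ug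
  linarith [h3.2.1 (by linarith [h4.1]), h4.2.1 (by linarith [h3.1])]

/-- The directions other than `i`, for a family close to the lower facet in direction `i`. -/
theorem near {h : Cube n → ℤ} (hh : Zo h) (hd : 3 * 2 ^ n ≤ 8 * ∑ x, h x)
    (uh : Bd h + ∑ i, cc h i ≤ 2 * (2 ^ n - ∑ x, h x)) (uk : Bd h + ∑ i, cc h i ≤ 2 ^ n)
    {i : Fin n} (hi : 2 ^ n < 4 * cc h i) : ∑ j ∈ univ.erase i, cc h j ≤ 0 := by
  have h1 := Bd_rs (xr h i) i
  have h2 := sum_rs (xr h i) i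
  have h3 := iso (zo_rs (zo_xr hh i) i false)
  have h4 := iso (zo_rs (zo_xr hh i) i true)
  have h5 := (cc_le_Bi hh i).1
  have h6 := sum_xr h i
  rw [Finset.sum_congr rfl fun j hj => Bi_xr h (Finset.ne_of_mem_erase hj).symm] at h1
  rw [Bd_eq, ← Finset.sum_erase_add _ _ (mem_univ i), ← Finset.sum_erase_add _ _ (mem_univ i)]
    at uh uk
  generalize (2 : ℤ) ^ n = N at *
  omega

/-- The case of no large first level coefficient. -/
theorem flat {h : Cube n → ℤ} (hh : Zo h) {a : ℤ} (h0 : 0 ≤ a) (h8 : 8 * a ≤ 2 ^ n)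
    (hd : 3 * 2 ^ n + 8 * a ≤ 8 * ∑ x, h x)
    (uh : Bd h + ∑ i, cc h i ≤ 2 * (2 ^ n - ∑ x, h x)) (uk : Bd h + ∑ i, cc h i ≤ 2 ^ n)
    (hi : ∀ i, 4 * cc h i ≤ 2 ^ n) {u : Fin n → ℤ} (u0 : ∀ i, 0 ≤ u i) (u1 : ∑ i, u i ≤ 2 * a)
    (u2 : ∀ i, -u i ≤ 2 * cc h i) : ∑ i, cc h i ≤ a := by
  by_contra hs
  have N0 : (0 : ℤ) < 2 ^ n := by positivity
  have l1 := level hh zero_le_one le_rfl
  have o0 := (Od_le hh).1
  have s1 : ∑ i, -(u i * (2 ^ n + 4 * a)) ≤ ∑ i, (2 * (2 ^ n * cc h i) - 8 * cc h i ^ 2) := by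
    refine Finset.sum_le_sum fun i _ => ?_
    have h1 : u i ≤ 2 * a := (Finset.single_le_sum (fun j _ => u0 j) (mem_univ i)).trans u1
    rcases le_total 0 (cc h i) with h2 | h2
    · nlinarith [mul_nonneg h2 (sub_nonneg.2 (hi i)), mul_nonneg (u0 i) h0, mul_nonneg (u0 i) N0.le]
    · nlinarith [mul_nonneg (neg_nonneg.2 h2) (show 0 ≤ a + cc h i by linarith [u2 i]),
        mul_nonneg (show 0 ≤ u i + 2 * cc h i by linarith [u2 i])
          (show 0 ≤ 2 ^ n + 4 * a by linarith)]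
  rw [Finset.sum_neg_distrib, ← Finset.sum_mul, Finset.sum_sub_distrib, ← Finset.mul_sum,
    ← Finset.mul_sum, ← Finset.mul_sum] at s1
  have s2 := mul_le_mul_of_nonneg_right u1 (show 0 ≤ 2 ^ n + 4 * a by linarith)
  have s3 := mul_le_mul_of_nonneg_left h8 h0
  have key : 8 * ∑ x, h x ≤ 5 * 2 ^ n → 16 * Od h ≤ 2 ^ n + 16 * a →
      16 * (∑ x, h x + Od h) ≤ 9 * 2 ^ n + 16 * a → False := fun h2 h3 h4 => by
    linarith [Bd_ge hh h0 h8 hd h2 h3 h4]
  rcases le_or_gt (2 * ∑ x, h x) (2 ^ n) with h1 | h1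
  · have m := mul_le_mul_of_nonneg_left uk N0.le
    have h3 : 16 * Od h ≤ 2 ^ n + 16 * a := by
      refine le_of_mul_le_mul_left ?_ N0
      nlinarith [mul_nonneg (show 0 ≤ 2 ^ n - 8 * a - 4 * (2 ^ n - 2 * ∑ x, h x) by linarith)
        (show 0 ≤ 2 ^ n - 8 * a + 4 * (2 ^ n - 2 * ∑ x, h x) by linarith)]
    exact key (by linarith) h3 (by linarith)
  have m := mul_le_mul_of_nonneg_left uh N0.le
  have h2 := iso (zo_compl hh)
  rw [sum_compl', Bd_compl] at h2
  rcases le_or_gt (8 * (2 ^ n - ∑ x, h x)) (2 ^ n) with h3 | h3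
  · linarith [h2.2.1 h3, h2.1]
  have h4 : 8 * ∑ x, h x ≤ 5 * 2 ^ n := by
    by_contra h4
    nlinarith [mul_pos (sub_pos.2 h3) (sub_pos.2 (not_le.1 h4)), mul_nonneg N0.le o0,
      mul_le_mul_of_nonneg_left h8 N0.le]
  have h5 : 4 * Od h ≤ 6 * a - 3 * (2 * ∑ x, h x - 2 ^ n) := by
    refine le_of_mul_le_mul_left ?_ N0
    nlinarith [mul_nonneg (sub_nonneg.2 h4) (sub_pos.2 h1).le]
  exact key h4 (by linarith) (by linarith)

theorem pair {G H : Cube n → Prop} (hG : ∀ x y, G x → G y → G fun i => x i || y i)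
    (hH : ∀ x y, H x → H y → H fun i => x i || y i) (hs : ∀ x, H x → G x) (hn : 2 ≤ n)
    (hd : 11 * 2 ^ n ≤ 8 * (∑ x, ind G x + ∑ x, ind H x)) :
    ∃ i, cc (ind G) i + cc (ind H) i ≤ 0 := by
  by_contra hc
  replace hc : ∀ i, 0 < cc (ind G) i + cc (ind H) i := fun i => not_le.1 fun h => hc ⟨i, h⟩
  have ug := (up_le hG).trans (mul_le_mul_of_nonneg_left (up_le' (P := G)) zero_le_two)
  have uh := (up_le hH).trans (mul_le_mul_of_nonneg_left (up_le' (P := H)) zero_le_two)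
  have uk : Bd (ind H) + ∑ i, cc (ind H) i ≤ 2 ^ n :=
    (up_le hH).trans (by exact_mod_cast kotlov (rt_step hH) (by omega))
  have hi := iso (zo_compl (zo_ind G))
  rw [sum_compl', Bd_compl] at hi
  rcases le_total (2 ^ n) (8 * (2 ^ n - ∑ x, ind G x)) with h8 | h8
  · refine far (zo_ind G) (zo_ind H) (fun x => ?_) (sub_sub_cancel _ _).symm
      (sub_sub_cancel _ _).symm (by linarith) h8 ug uh (by omega) hc
    by_cases a : H x
    · simp [ind, a, hs x a]
    · simpa [ind, a] using em' (G x)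
  by_cases hbig : ∃ i, 2 ^ n < 4 * cc (ind H) i
  · obtain ⟨i, hbig⟩ := hbig
    have h1 := side (zo_ind G) (sub_sub_cancel _ _).symm h8 ug i
    have h2 := near (zo_ind H) (by linarith [hi.1]) uh uk hbig
    have h3 := Finset.sum_pos (s := univ.erase i) (fun j _ => hc j)
      (Finset.card_pos.1 (by simp; omega))
    rw [Finset.sum_add_distrib] at h3
    linarith
  have h1 := flat (zo_ind H) hi.1 h8 (by linarith) uh uk (fun i => not_lt.1 fun h => hbig ⟨i, h⟩)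
    (u := fun i => Bi (ind G) i + cc (ind G) i) (fun i => by linarith [(cc_le_Bi (zo_ind G) i).2])
    (by rwa [Finset.sum_add_distrib]) (fun i => by linarith [(cc_le_Bi (zo_ind G) i).1, hc i])
  have h3 := Finset.sum_pos (s := univ) (fun j _ => hc j) ⟨⟨0, by omega⟩, mem_univ _⟩
  rw [Finset.sum_add_distrib] at h3
  linarith [hi.2.1 h8]

end Pool.Agent.MP_caa27d_co
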